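import Mathlib

/-!
# The chromatic number of the span-colouring graph `A_{k^n}` exceeds `n`

For every field `k` and every `n ≥ 3` the graph `A_{k^n}` is not `n`-colourable.

* The neighbours of the vertex `(⟨e₀⟩, {x | x 0 = 0})` of `A_{k^{n+1}}` include a copy of `A_{k^n}`, so
  an `(m+1)`-colouring of `A_{k^{n+1}}` gives an `m`-colouring of `A_{k^n}`.
* `A_{k^3}` receives a homomorphism from a sixteen-vertex graph, whose vertices are pairs of integer
  vectors `(u, v)` with `v · u = 1` and whose edges are integer orthogonality relations, and which is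
  not 3-colourable.
-/

namespace Pool.Agent.Results.MP_3b2a32_co.SpanGraphGap

universe u

/-- The vertices of `A_{k^n}`: pairs `(U, V)` of subspaces of `k^n` with `dim U = 1` and
`U ⊕ V = k^n`. -/
structure SpanVertex (k : Type u) [Field k] (n : ℕ) where
  line : Submodule k (Fin n → k)
  hyper : Submodule k (Fin n → k)
  finrank_line : Module.finrank k line = 1
  isCompl : IsCompl line hyper

/-- The graph `A_{k^n}`: `(U, V)` and `(U', V')` are adjacent iff `U ⊆ V'` and `U' ⊆ V`. -/
def spanGraph (k : Type u) [Field k] (n : ℕ) : SimpleGraph (SpanVertex k n) where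
  Adj x y := x.line ≤ y.hyper ∧ y.line ≤ x.hyper
  symm := ⟨fun _ _ h => ⟨h.2, h.1⟩⟩
  loopless := ⟨fun x h => by
    have h1 : x.line = ⊥ := (disjoint_self.mp (x.isCompl.disjoint.mono_right h.1))
    have h2 := x.finrank_line
    rw [h1, finrank_bot] at h2
    exact absurd h2 (by norm_num)⟩

variable {k : Type u} [Field k] {n : ℕ}

/-- The vertex `(⟨w⟩, ker f)` for a vector `w` and a functional `f` with `f w = 1`. -/
def mk (w : Fin n → k) (f : (Fin n → k) →ₗ[k] k) (h : f w = 1) : SpanVertex k n where
  line := Submodule.span k {w}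
  hyper := LinearMap.ker f
  finrank_line := by
    apply finrank_span_singleton
    rintro rfl
    simp at h
  isCompl := by
    constructor
    · rw [Submodule.disjoint_def]
      intro x hx hx'
      obtain ⟨a, rfl⟩ := Submodule.mem_span_singleton.mp hx
      rw [LinearMap.mem_ker, map_smul, h, smul_eq_mul, mul_one] at hx'
      rw [hx', zero_smul]
    · rw [codisjoint_iff, Submodule.eq_top_iff']
      intro x
      rw [Submodule.mem_sup]
      refine ⟨f x • w, Submodule.smul_mem _ _ (Submodule.mem_span_singleton_self w),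
        x - f x • w, ?_, by abel⟩
      rw [LinearMap.mem_ker, map_sub, map_smul, h, smul_eq_mul, mul_one, sub_self]

theorem mk_adj {w w' : Fin n → k} {f f' : (Fin n → k) →ₗ[k] k} {h : f w = 1} {h' : f' w' = 1}
    (h1 : f' w = 0) (h2 : f w' = 0) : (spanGraph k n).Adj (mk w f h) (mk w' f' h') := by
  constructor
  · change Submodule.span k {w} ≤ LinearMap.ker f'
    rw [Submodule.span_singleton_le_iff_mem]
    exact h1
  · change Submodule.span k {w'} ≤ LinearMap.ker f
    rw [Submodule.span_singleton_le_iff_mem]
    exact h2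

/-! ### The reduction step -/

/-- The inclusion `k^n → k^{n+1}`, `x ↦ (0, x)`. -/
def inc : (Fin n → k) →ₗ[k] (Fin (n + 1) → k) where
  toFun x := Fin.cons 0 x
  map_add' x y := by
    ext i
    refine Fin.cases ?_ (fun j => ?_) i
    · simp
    · simp
  map_smul' a x := by
    ext i
    refine Fin.cases ?_ (fun j => ?_) i
    · simp
    · simp

/-- The projection `k^{n+1} → k^n` forgetting the first coordinate. -/
def prj : (Fin (n + 1) → k) →ₗ[k] (Fin n → k) where
  toFun x := fun j => x j.succ
  map_add' _ _ := rfl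
  map_smul' _ _ := rfl

theorem prj_inc (x : Fin n → k) : prj (inc x) = x := by
  ext j
  simp [prj, inc]

theorem inc_injective : Function.Injective (inc : (Fin n → k) →ₗ[k] (Fin (n + 1) → k)) := by
  intro x y h
  have := congrArg prj h
  rwa [prj_inc, prj_inc] at this

/-- The copy of the vertex `(U, V)` of `A_{k^n}` in `A_{k^{n+1}}`. -/
def lift (x : SpanVertex k n) : SpanVertex k (n + 1) where
  line := x.line.map inc
  hyper := x.hyper.comap prj
  finrank_line := by
    rw [← (Submodule.equivMapOfInjective inc inc_injective x.line).finrank_eq]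
    exact x.finrank_line
  isCompl := by
    constructor
    · rw [Submodule.disjoint_def]
      intro y hy hy'
      obtain ⟨z, hz, rfl⟩ := Submodule.mem_map.mp hy
      rw [Submodule.mem_comap, prj_inc] at hy'
      rw [(Submodule.disjoint_def.mp x.isCompl.disjoint) z hz hy', map_zero]
    · rw [codisjoint_iff, Submodule.eq_top_iff']
      intro y
      have hy : prj y ∈ x.line ⊔ x.hyper := by
        rw [codisjoint_iff.mp x.isCompl.codisjoint]
        trivial
      obtain ⟨a, ha, b, hb, hab⟩ := Submodule.mem_sup.mp hy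
      rw [Submodule.mem_sup]
      refine ⟨inc a, Submodule.mem_map_of_mem ha, y - inc a, ?_, by abel⟩
      rw [Submodule.mem_comap, map_sub, prj_inc, ← hab]
      simpa using hb

theorem lift_adj {x y : SpanVertex k n} (h : (spanGraph k n).Adj x y) :
    (spanGraph k (n + 1)).Adj (lift x) (lift y) := by
  constructor
  · change x.line.map inc ≤ y.hyper.comap prj
    rintro z hz
    obtain ⟨w, hw, rfl⟩ := Submodule.mem_map.mp hz
    rw [Submodule.mem_comap, prj_inc]
    exact h.1 hw
  · change y.line.map inc ≤ x.hyper.comap prj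
    rintro z hz
    obtain ⟨w, hw, rfl⟩ := Submodule.mem_map.mp hz
    rw [Submodule.mem_comap, prj_inc]
    exact h.2 hw

/-- The vertex `(⟨e₀⟩, {x | x 0 = 0})`. -/
def apex : SpanVertex k (n + 1) :=
  mk (Pi.single 0 1) (LinearMap.proj 0) (by simp)

theorem apex_adj (x : SpanVertex k n) : (spanGraph k (n + 1)).Adj (lift x) apex := by
  constructor
  · change x.line.map inc ≤ LinearMap.ker (LinearMap.proj 0)
    rintro z hz
    obtain ⟨w, hw, rfl⟩ := Submodule.mem_map.mp hz
    simp [inc]
  · change Submodule.span k {Pi.single 0 1} ≤ x.hyper.comap prj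
    rw [Submodule.span_singleton_le_iff_mem, Submodule.mem_comap]
    have : prj (Pi.single 0 1 : Fin (n + 1) → k) = 0 := by
      ext j
      simp [prj]
    rw [this]
    exact Submodule.zero_mem _

theorem colorable_down {m : ℕ} (h : (spanGraph k (n + 1)).Colorable (m + 1)) :
    (spanGraph k n).Colorable m := by
  obtain ⟨C⟩ := h
  let D : (spanGraph k n).Coloring {c : Fin (m + 1) // c ≠ C apex} :=
    SimpleGraph.Coloring.mk (fun x => ⟨C (lift x), C.valid (apex_adj x)⟩) (by
      intro x y hxy he
      exact C.valid (lift_adj hxy) (congrArg Subtype.val he))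
  have h1 := D.colorable
  have h2 : Fintype.card {c : Fin (m + 1) // c ≠ C apex} = m := by
    simp
  rwa [h2] at h1

/-! ### The three-dimensional case -/

/-- A search for colourings with three colours. -/
def search (adj : ℕ → ℕ → Bool) : List ℕ → List (ℕ × ℕ) → Bool
  | [], _ => true
  | v :: rest, asg => [0, 1, 2].any fun c =>
      asg.all (fun p => !(adj v p.1 && p.2 == c)) && search adj rest ((v, c) :: asg)

theorem search_complete (adj : ℕ → ℕ → Bool) (f : ℕ → ℕ) (hf : ∀ v, f v < 3)
    (hadj : ∀ v w, adj v w = true → f v ≠ f w) (l : List ℕ) (asg : List (ℕ × ℕ))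
    (hasg : ∀ p ∈ asg, p.2 = f p.1) : search adj l asg = true := by
  induction l generalizing asg with
  | nil => rfl
  | cons v rest ih =>
    rw [search, List.any_eq_true]
    refine ⟨f v, ?_, ?_⟩
    · have := hf v
      simp only [List.mem_cons, List.not_mem_nil, or_false]
      omega
    · rw [Bool.and_eq_true]
      constructor
      · rw [List.all_eq_true]
        intro p hp
        rw [Bool.not_eq_true', Bool.and_eq_false_iff]
        by_cases h : adj v p.1 = true
        · right
          rw [hasg p hp]
          simpa using fun h' : f p.1 = f v => hadj v p.1 h h'.symm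
        · left
          simpa using h
      · apply ih
        intro p hp
        rcases List.mem_cons.mp hp with rfl | hp
        · rfl
        · exact hasg p hp

/-- The sixteen pairs of integer vectors. -/
def data : Fin 16 → (Fin 3 → ℤ) × (Fin 3 → ℤ) := ![
  (![0, 1, 1], ![1, 0, 1]),
  (![1, 0, -1], ![1, 0, 0]),
  (![0, 1, 0], ![-1, 1, -1]),
  (![1, 1, 0], ![1, 0, 0]),
  (![0, 1, 1], ![0, 0, 1]),
  (![0, 0, 1], ![1, -1, 1]),
  (![0, 1, 1], ![0, 1, 0]),
  (![1, 0, 0], ![1, -1, 1]),
  (![1, 0, -1], ![0, 1, -1]),
  (![1, 0, -1], ![0, 0, -1]),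
  (![1, 1, 0], ![0, 1, 0]),
  (![0, 0, 1], ![0, 0, 1]),
  (![0, 1, 0], ![0, 1, 0]),
  (![1, 0, 0], ![1, 0, 0]),
  (![1, 0, 0], ![1, 0, 1]),
  (![0, 1, 0], ![0, 1, -1])]

/-- Integer dot product. -/
def dot (v w : Fin 3 → ℤ) : ℤ := v 0 * w 0 + v 1 * w 1 + v 2 * w 2

theorem data_one : ∀ i : Fin 16, dot (data i).2 (data i).1 = 1 := by decide

/-- Integer orthogonality of the pairs `i` and `j`. -/
def iadj (i j : Fin 16) : Bool :=
  dot (data j).2 (data i).1 == 0 && dot (data i).2 (data j).1 == 0

/-- The same on natural numbers. -/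
def nadj (a b : ℕ) : Bool :=
  if h : a < 16 ∧ b < 16 then iadj ⟨a, h.1⟩ ⟨b, h.2⟩ else false

theorem search_false : search nadj [0, 1, 2, 3, 4, 5, 6, 7, 8, 9, 10, 11, 12, 13, 14, 15] [] = false := by
  decide +kernel

/-- The functional over `k` given by an integer vector. -/
def func (v : Fin 3 → ℤ) : (Fin 3 → k) →ₗ[k] k :=
  ((v 0 : ℤ) : k) • LinearMap.proj 0 + ((v 1 : ℤ) : k) • LinearMap.proj 1
    + ((v 2 : ℤ) : k) • LinearMap.proj 2

theorem func_cast (v w : Fin 3 → ℤ) :
    func v (fun i => ((w i : ℤ) : k)) = ((dot v w : ℤ) : k) := by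
  simp [func, dot]

/-- The vertex of `A_{k^3}` given by the `i`-th pair. -/
def vert (k : Type u) [Field k] (i : Fin 16) : SpanVertex k 3 :=
  mk (fun j => (((data i).1 j : ℤ) : k)) (func (data i).2) (by
    rw [func_cast, data_one]; simp)

theorem vert_adj (i j : Fin 16) (h : iadj i j = true) :
    (spanGraph k 3).Adj (vert k i) (vert k j) := by
  rw [iadj, Bool.and_eq_true, beq_iff_eq, beq_iff_eq] at h
  apply mk_adj
  · rw [func_cast, h.1]; simp
  · rw [func_cast, h.2]; simp

theorem not_colorable_three (k : Type u) [Field k] : ¬ (spanGraph k 3).Colorable 3 := by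
  rintro ⟨C⟩
  have h := search_complete nadj
    (fun a => if h : a < 16 then ((C (vert k ⟨a, h⟩) : Fin 3) : ℕ) else 0)
    (by
      intro a
      by_cases h : a < 16
      · simp only [h, dif_pos]
        exact (C (vert k ⟨a, h⟩)).isLt
      · simp [h])
    (by
      intro a b hab
      unfold nadj at hab
      by_cases h : a < 16 ∧ b < 16
      · rw [dif_pos h] at hab
        simp only [h.1, h.2, dif_pos]
        intro he
        exact C.valid (vert_adj _ _ hab) (Fin.ext he)
      · rw [dif_neg h] at hab
        exact absurd hab (by simp))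
    [0, 1, 2, 3, 4, 5, 6, 7, 8, 9, 10, 11, 12, 13, 14, 15] [] (by simp)
  rw [search_false] at h
  exact absurd h (by simp)

theorem not_colorable (k : Type u) [Field k] (m : ℕ) : ¬ (spanGraph k (m + 3)).Colorable (m + 3) := by
  induction m with
  | zero => exact not_colorable_three k
  | succ m ih => exact fun h => ih (colorable_down h)

/-- For every field `k` and every `n ≥ 3`, `χ(A_{k^n}) > n`. -/
theorem result (k : Type u) [Field k] (n : ℕ) (hn : 3 ≤ n) :
    (n : ℕ∞) < (spanGraph k n).chromaticNumber := by
  obtain ⟨m, rfl⟩ := Nat.exists_eq_add_of_le' hn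
  rw [← not_le, SimpleGraph.chromaticNumber_le_iff_colorable]
  exact not_colorable k m

end Pool.Agent.Results.MP_3b2a32_co.SpanGraphGap
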